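import Pool.Agent.X153.CS.Mono

set_option autoImplicit false

open Set Filter Topology Real

namespace Pool.Agent.X153.CS

/-- The series as a function of `y`. -/
noncomputable def Sy (y : ℝ) : ℝ := ∑' k : ℕ, (-1) ^ k * (sinh y / sinh (((k : ℝ) + 1) * y))

lemma term_le {y : ℝ} (hy : 0 < y) (k : ℕ) :
    sinh y / sinh (((k : ℝ) + 1) * y) = ∑' m : ℕ, 2 * sinh y * exp (-y) ^ ((k + 1) * (2 * m + 1)) := by
  set x := exp (-y) with hx
  have hx0 : 0 < x := exp_pos _
  have hx1 : x < 1 := exp_lt_one_iff.2 (by linarith)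
  set z := x ^ (k + 1) with hz
  have hz0 : 0 < z := by positivity
  have hz1 : z < 1 := pow_lt_one₀ hx0.le hx1 (Nat.succ_ne_zero k)
  have e1 : ∀ m : ℕ, 2 * sinh y * x ^ ((k + 1) * (2 * m + 1)) = 2 * sinh y * z * (z ^ 2) ^ m := by
    intro m
    rw [hz]
    ring
  simp_rw [e1]
  rw [tsum_mul_left, tsum_geometric_of_lt_one (by positivity) (by nlinarith)]
  have hzE : z = exp (-(((k : ℝ) + 1) * y)) := by
    rw [hz, hx, ← exp_nat_mul]; congr 1; push_cast; ring
  have hinv : exp (((k : ℝ) + 1) * y) = z⁻¹ := by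
    rw [hzE, ← exp_neg, neg_neg]
  rw [sinh_eq (((k : ℝ) + 1) * y), hinv, ← hzE]
  have : 1 - z ^ 2 ≠ 0 := by nlinarith
  have h2 : z⁻¹ - z ≠ 0 := by
    have : z⁻¹ - z = (1 - z ^ 2) / z := by field_simp
    rw [this]; positivity
  field_simp

lemma summF {y : ℝ} (hy : 0 < y) :
    Summable (Function.uncurry fun (k m : ℕ) =>
      (-1 : ℝ) ^ k * (2 * sinh y * exp (-y) ^ ((k + 1) * (2 * m + 1)))) := by
  set x := exp (-y) with hx
  have hx0 : 0 < x := exp_pos _
  have hx1 : x < 1 := exp_lt_one_iff.2 (by linarith)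
  have hs : 0 < sinh y := sinh_pos_iff.2 hy
  have hg := summable_geometric_of_lt_one hx0.le hx1
  have hp : Summable fun p : ℕ × ℕ => x ^ p.1 * x ^ p.2 :=
    hg.mul_of_nonneg hg (fun _ => by positivity) (fun _ => by positivity)
  refine Summable.of_norm_bounded (hp.mul_left (2 * sinh y)) ?_
  rintro ⟨k, m⟩
  simp only [Function.uncurry_apply_pair]
  rw [norm_mul, norm_pow, norm_neg, norm_one, one_pow, one_mul, Real.norm_eq_abs, abs_of_nonneg (by positivity)]
  rw [← pow_add]
  apply mul_le_mul_of_nonneg_left _ (by positivity)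
  apply pow_le_pow_of_le_one hx0.le hx1.le
  nlinarith

lemma Sy_eq {y : ℝ} (hy : 0 < y) : Sy y = 1 / 2 + 1 / 2 * ∑' m, g m (2 * y) := by
  set x := exp (-y) with hx
  have hx0 : 0 < x := exp_pos _
  have hx1 : x < 1 := exp_lt_one_iff.2 (by linarith)
  have hs : 0 < sinh y := sinh_pos_iff.2 hy
  have h1 : Sy y = ∑' k : ℕ, ∑' m : ℕ, (-1 : ℝ) ^ k * (2 * sinh y * x ^ ((k + 1) * (2 * m + 1))) := by
    unfold Sy
    refine tsum_congr fun k => ?_
    rw [term_le hy, ← tsum_mul_left]
  have h2 : ∀ m : ℕ, ∑' k : ℕ, (-1 : ℝ) ^ k * (2 * sinh y * x ^ ((k + 1) * (2 * m + 1))) =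
      1 / 2 * (exp (-(m * (2 * y))) - exp (-((m + 1) * (2 * y)))) + 1 / 2 * g m (2 * y) := by
    intro m
    set z := x ^ (2 * m + 1) with hz
    have hz0 : 0 < z := by positivity
    have hz1 : z < 1 := pow_lt_one₀ hx0.le hx1 (Nat.succ_ne_zero _)
    have e1 : ∀ k : ℕ, (-1 : ℝ) ^ k * (2 * sinh y * x ^ ((k + 1) * (2 * m + 1))) =
        2 * sinh y * z * (-z) ^ k := by
      intro k
      rw [hz, neg_pow (x ^ (2 * m + 1)) k]
      ring
    simp_rw [e1]
    rw [tsum_mul_left, tsum_geometric_of_norm_lt_one (by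
      rw [norm_neg, Real.norm_of_nonneg hz0.le]; exact hz1)]
    unfold g
    have hzE : z = exp (-((2 * m + 1) * y)) := by
      rw [hz, hx, ← exp_nat_mul]; congr 1; push_cast; ring
    have e2 : exp (-(m * (2 * y))) - exp (-((m + 1) * (2 * y))) = 2 * sinh y * z := by
      rw [sinh_eq, hzE]
      have a1 : exp (-(m * (2 * y))) = exp y * exp (-((2 * m + 1) * y)) := by
        rw [← exp_add]; congr 1; ring
      have a2 : exp (-((m + 1) * (2 * y))) = exp (-y) * exp (-((2 * m + 1) * y)) := by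
        rw [← exp_add]; congr 1; ring
      rw [a1, a2]; ring
    have e3 : tanh (((m : ℝ) + 1 / 2) * (2 * y) / 2) = (1 - z) / (1 + z) := by
      have : ((m : ℝ) + 1 / 2) * (2 * y) / 2 = (2 * m + 1) * y / 2 := by ring
      rw [this, tanh_eq_sinh_div_cosh, sinh_eq, cosh_eq]
      set w := exp ((2 * m + 1) * y / 2)
      have hw0 : 0 < w := exp_pos _
      have hw1 : exp (-((2 * m + 1) * y / 2)) = w⁻¹ := exp_neg _
      have hw2 : z = w⁻¹ ^ 2 := by
        rw [← hw1, hzE, ← exp_nat_mul]; congr 1; push_cast; ring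
      rw [hw1, hw2]
      field_simp
    rw [e2, e3]
    have : 1 + z ≠ 0 := by positivity
    rw [sub_neg_eq_add]
    field_simp
    ring
  have hF := summF hy
  rw [← hx] at hF
  rw [h1, ← Summable.tsum_comm hF]
  simp_rw [h2]
  have hg := summable_g (h := 2 * y) (by positivity)
  have ht : HasSum (fun m : ℕ => exp (-(m * (2 * y))) - exp (-((m + 1) * (2 * y)))) 1 := by
    have h5 : Tendsto (fun m : ℕ => exp (-(m * (2 * y)))) atTop (𝓝 0) := by
      have := tendsto_pow_atTop_nhds_zero_of_lt_one (r := exp (-(2 * y))) (exp_pos _).le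
        (exp_lt_one_iff.2 (by linarith))
      refine this.congr fun m => ?_
      rw [← exp_nat_mul]; congr 1; ring
    have h6 : ∀ m : ℕ, 0 ≤ exp (-(m * (2 * y))) - exp (-((m + 1) * (2 * y))) := by
      intro m
      rw [sub_nonneg]; apply exp_le_exp.2; nlinarith
    rw [hasSum_iff_tendsto_nat_of_nonneg h6]
    have h7 : ∀ N : ℕ, ∑ m ∈ Finset.range N,
        (exp (-(m * (2 * y))) - exp (-((m + 1) * (2 * y)))) = 1 - exp (-(N * (2 * y))) := by
      intro N
      induction N with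
      | zero => simp
      | succ N ih => rw [Finset.sum_range_succ, ih]; push_cast; ring
    simp_rw [h7]
    simpa using h5.const_sub 1
  rw [(ht.summable.mul_left _).tsum_add (hg.mul_left _), tsum_mul_left, tsum_mul_left, ht.tsum_eq]
  ring

lemma summ_abs {y : ℝ} (hy : 0 < y) :
    Summable fun k : ℕ => |(-1) ^ k * (sinh y / sinh (((k : ℝ) + 1) * y))| := by
  have hF := (summF hy).abs
  have h1 := hF.prod_factor
  have h2 := hF.prod
  refine h2.congr fun k => ?_
  have h3 : ∀ m : ℕ, |Function.uncurry (fun (k m : ℕ) =>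
      (-1 : ℝ) ^ k * (2 * sinh y * exp (-y) ^ ((k + 1) * (2 * m + 1)))) (k, m)| =
      2 * sinh y * exp (-y) ^ ((k + 1) * (2 * m + 1)) := by
    intro m
    have hs : 0 < sinh y := sinh_pos_iff.2 hy
    have := exp_pos (-y)
    simp only [Function.uncurry_apply_pair]
    rw [abs_mul, abs_pow, abs_neg, abs_one, one_pow, one_mul, abs_of_nonneg (by positivity)]
  simp_rw [h3]
  rw [← term_le hy, abs_mul, abs_pow, abs_neg, abs_one, one_pow, one_mul, abs_of_nonneg]
  have : 0 < sinh (((k : ℝ) + 1) * y) := sinh_pos_iff.2 (by positivity)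
  have hs : 0 < sinh y := sinh_pos_iff.2 hy
  positivity

end Pool.Agent.X153.CS
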