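import Mathlib

/-! The series `∑ (e^{-mh} - e^{-(m+1)h}) tanh ((m+1/2)h/2)` is strictly increasing in `h > 0`. -/

set_option autoImplicit false

open Set Filter Topology Real

namespace Pool.Agent.X153.CS

/-- The terms. -/
noncomputable def g (m : ℕ) (h : ℝ) : ℝ :=
  (exp (-(m * h)) - exp (-((m + 1) * h))) * tanh ((m + 1 / 2) * h / 2)

/-- Twice the hyperbolic secant at the nodes, squared and halved. -/
noncomputable def D (m : ℕ) (h : ℝ) : ℝ := 1 / 2 * (1 / cosh ((m + 1 / 2) * h / 2)) ^ 2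

noncomputable def g' (m : ℕ) (h : ℝ) : ℝ :=
  (-(m * exp (-(m * h))) + (m + 1) * exp (-((m + 1) * h))) * tanh ((m + 1 / 2) * h / 2) +
    (exp (-(m * h)) - exp (-((m + 1) * h))) * ((m + 1 / 2) * D m h)

lemma hasDerivAt_tanh' (x : ℝ) : HasDerivAt tanh ((1 / cosh x) ^ 2) x := by
  have h1 : HasDerivAt (fun x => sinh x / cosh x)
      ((cosh x * cosh x - sinh x * sinh x) / (cosh x) ^ 2) x :=
    (hasDerivAt_sinh x).div (hasDerivAt_cosh x) (cosh_pos x).ne'
  have h2 : (fun x => sinh x / cosh x) = tanh := by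
    ext y; rw [tanh_eq_sinh_div_cosh]
  rw [h2] at h1
  refine h1.congr_deriv ?_
  have := cosh_sq x
  rw [div_pow, one_pow]
  congr 1
  nlinarith

lemma hasDerivAt_g (m : ℕ) (h : ℝ) : HasDerivAt (g m) (g' m h) h := by
  unfold g g' D
  have h1 : HasDerivAt (fun h : ℝ => exp (-((m : ℝ) * h))) (exp (-((m : ℝ) * h)) * (-(m : ℝ))) h := by
    have : HasDerivAt (fun h : ℝ => -((m : ℝ) * h)) (-(m : ℝ)) h :=
      ((hasDerivAt_id' h).const_mul (m : ℝ)).neg.congr_deriv (by ring)
    exact this.exp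
  have h2 : HasDerivAt (fun h : ℝ => exp (-(((m : ℝ) + 1) * h)))
      (exp (-(((m : ℝ) + 1) * h)) * (-((m : ℝ) + 1))) h := by
    have : HasDerivAt (fun h : ℝ => -(((m : ℝ) + 1) * h)) (-((m : ℝ) + 1)) h :=
      ((hasDerivAt_id' h).const_mul ((m : ℝ) + 1)).neg.congr_deriv (by ring)
    exact this.exp
  have h3 : HasDerivAt (fun h : ℝ => tanh (((m : ℝ) + 1 / 2) * h / 2))
      ((1 / cosh (((m : ℝ) + 1 / 2) * h / 2)) ^ 2 * (((m : ℝ) + 1 / 2) / 2)) h := by
    have : HasDerivAt (fun h : ℝ => ((m : ℝ) + 1 / 2) * h / 2) (((m : ℝ) + 1 / 2) / 2) h :=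
      (((hasDerivAt_id' h).const_mul ((m : ℝ) + 1 / 2)).div_const 2).congr_deriv (by ring)
    exact (hasDerivAt_tanh' _).comp h this
  exact ((h1.fun_sub h2).fun_mul h3).congr_deriv (by ring)

lemma D_pos (m : ℕ) (h : ℝ) : 0 < D m h := by
  unfold D
  have := cosh_pos (((m : ℝ) + 1 / 2) * h / 2)
  positivity

lemma D_le (m : ℕ) (h : ℝ) : D m h ≤ 1 / 2 := by
  unfold D
  have h1 := one_le_cosh (((m : ℝ) + 1 / 2) * h / 2)
  have h2 : 1 / cosh (((m : ℝ) + 1 / 2) * h / 2) ≤ 1 := by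
    rw [div_le_one (by linarith)]; exact h1
  have h3 : 0 ≤ 1 / cosh (((m : ℝ) + 1 / 2) * h / 2) := by positivity
  nlinarith

lemma D_anti {h : ℝ} (hh : 0 < h) (m : ℕ) : D (m + 1) h < D m h := by
  unfold D
  have h1 : cosh (((m : ℝ) + 1 / 2) * h / 2) < cosh ((((m + 1 : ℕ) : ℝ) + 1 / 2) * h / 2) := by
    rw [cosh_lt_cosh, abs_of_pos (by positivity), abs_of_pos (by positivity)]
    push_cast
    nlinarith
  have h0 := cosh_pos (((m : ℝ) + 1 / 2) * h / 2)
  have h2 : 1 / cosh ((((m + 1 : ℕ) : ℝ) + 1 / 2) * h / 2) < 1 / cosh (((m : ℝ) + 1 / 2) * h / 2) :=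
    one_div_lt_one_div_of_lt h0 h1
  have h3 : 0 < 1 / cosh ((((m + 1 : ℕ) : ℝ) + 1 / 2) * h / 2) := by
    have := h0.trans h1; positivity
  nlinarith

/-- The increment of `tanh` along the nodes. -/
lemma T_diff (m : ℕ) {h : ℝ} (hh : 0 < h) :
    tanh ((((m + 1 : ℕ) : ℝ) + 1 / 2) * h / 2) - tanh (((m : ℝ) + 1 / 2) * h / 2) ≤
      sinh (h / 2) * (D m h + D (m + 1) h) := by
  set a := ((m : ℝ) + 1 / 2) * h / 2 with ha
  set b := (((m + 1 : ℕ) : ℝ) + 1 / 2) * h / 2 with hb
  have hab : h / 2 = b - a := by rw [ha, hb]; push_cast; ring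
  have hs : 0 < sinh (h / 2) := sinh_pos_iff.2 (by positivity)
  have h1 : tanh b - tanh a = sinh (h / 2) * ((1 / cosh a) * (1 / cosh b)) := by
    rw [hab, sinh_sub, tanh_eq_sinh_div_cosh, tanh_eq_sinh_div_cosh]
    have := cosh_pos a; have := cosh_pos b
    field_simp
  rw [h1]
  apply mul_le_mul_of_nonneg_left _ hs.le
  unfold D
  rw [← ha, ← hb]
  nlinarith [sq_nonneg (1 / cosh a - 1 / cosh b)]

/-- `c m = m e^{-mh}`. -/
noncomputable def c (m : ℕ) (h : ℝ) : ℝ := m * exp (-(m * h))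

/-- The coefficient of `D m`. -/
noncomputable def β (m : ℕ) (h : ℝ) : ℝ :=
  (exp (-(m * h)) - exp (-((m + 1) * h))) * (m + 1 / 2) - sinh (h / 2) * (c m h + c (m + 1) h)

lemma partial_ge {h : ℝ} (hh : 0 < h) (N : ℕ) :
    c N h * tanh ((N + 1 / 2) * h / 2) - sinh (h / 2) * (c N h * D N h) +
      ∑ m ∈ Finset.range N, D m h * β m h ≤ ∑ m ∈ Finset.range N, g' m h := by
  induction N with
  | zero => simp [c]
  | succ N ih =>
    rw [Finset.sum_range_succ, Finset.sum_range_succ]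
    have hc : 0 ≤ c (N + 1) h := by unfold c; positivity
    have hT := mul_le_mul_of_nonneg_left (T_diff N hh) hc
    have e1 : g' N h = (c (N + 1) h - c N h) * tanh ((N + 1 / 2) * h / 2) +
        (exp (-(N * h)) - exp (-((N + 1) * h))) * ((N + 1 / 2) * D N h) := by
      unfold g' c; push_cast; ring
    have e2 : D N h * β N h = (exp (-(N * h)) - exp (-((N + 1) * h))) * ((N + 1 / 2) * D N h) -
        sinh (h / 2) * (c N h * D N h) - sinh (h / 2) * (c (N + 1) h * D N h) := by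
      unfold β; ring
    rw [e1, e2]
    nlinarith

lemma beta_eq (m : ℕ) (h : ℝ) :
    β m h = sinh (h / 2) * (1 - exp (-(h / 2))) * (exp (-(m * h)) *
      (exp (-(h / 2)) - m * (1 - exp (-(h / 2))))) := by
  unfold β c
  set p := exp (-(h / 2)) with hp
  have hpp : exp (-h) = p ^ 2 := by
    rw [hp, ← exp_nat_mul]; congr 1; push_cast; ring
  have e1 : exp (-((m + 1) * h)) = exp (-(m * h)) * p ^ 2 := by
    rw [← hpp, ← exp_add]; congr 1; ring
  have e2 : exp (-(((m + 1 : ℕ) : ℝ) * h)) = exp (-(m * h)) * p ^ 2 := by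
    rw [← e1]; congr 2; push_cast; ring
  have e3 : 1 - p ^ 2 = 2 * p * sinh (h / 2) := by
    rw [sinh_eq, ← hp]
    have : p * exp (h / 2) = 1 := by rw [hp, ← exp_add]; simp
    nlinarith
  rw [e2, e1]
  have e4 : exp (-(m * h)) - exp (-(m * h)) * p ^ 2 = exp (-(m * h)) * (2 * p * sinh (h / 2)) := by
    rw [← e3]; ring
  rw [e4]
  push_cast
  ring

/-- The partial sums of `β` are positive. -/
lemma beta_sum_pos {h : ℝ} (hh : 0 < h) (N : ℕ) : 0 ≤ ∑ m ∈ Finset.range N, β m h := by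
  set p := exp (-(h / 2)) with hp
  have hp0 : 0 < p := exp_pos _
  have hp1 : p < 1 := by rw [hp, exp_lt_one_iff]; linarith
  have hs : 0 < sinh (h / 2) := sinh_pos_iff.2 (by positivity)
  set A := p / ((1 + p) * (1 - p ^ 2)) with hA
  have hq : 0 < 1 - p ^ 2 := by nlinarith
  have key : ∀ N : ℕ, ∑ m ∈ Finset.range N, β m h =
      sinh (h / 2) * (1 - p) * (A - exp (-(N * h)) * (A - N / (1 + p))) := by
    intro N
    induction N with
    | zero => simp
    | succ N ih =>
      rw [Finset.sum_range_succ, ih, beta_eq, ← hp]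
      have hpp : exp (-h) = p ^ 2 := by
        rw [hp, ← exp_nat_mul]; congr 1; push_cast; ring
      have e2 : exp (-(((N + 1 : ℕ) : ℝ) * h)) = exp (-(N * h)) * p ^ 2 := by
        rw [← hpp, ← exp_add]; congr 1; push_cast; ring
      rw [e2]
      have e3 : p - N * (1 - p) = (A - N / (1 + p)) - p ^ 2 * (A - ((N + 1 : ℕ) : ℝ) / (1 + p)) := by
        rw [hA]
        push_cast
        have : 1 + p ≠ 0 := by positivity
        have := hq.ne'
        field_simp
        ring
      rw [e3]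
      ring
  rw [key]
  have hA0 : 0 < A := by positivity
  have hE : exp (-(N * h)) ≤ 1 := by
    rw [exp_le_one_iff]
    have : 0 ≤ (N : ℝ) * h := by positivity
    linarith
  have hE0 : 0 < exp (-(N * h)) := exp_pos _
  have h1 : exp (-(N * h)) * (A - N / (1 + p)) ≤ A := by
    have : 0 ≤ (N : ℝ) / (1 + p) := by positivity
    nlinarith [mul_nonneg hE0.le this, mul_le_mul_of_nonneg_right hE hA0.le]
  have h2 : 0 ≤ sinh (h / 2) * (1 - p) := mul_nonneg hs.le (by linarith)
  exact mul_nonneg h2 (by linarith)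

lemma beta0 {h : ℝ} (hh : 0 < h) : 0 < β 0 h := by
  rw [beta_eq]
  have hp1 : exp (-(h / 2)) < 1 := by rw [exp_lt_one_iff]; linarith
  have hs : 0 < sinh (h / 2) := sinh_pos_iff.2 (by positivity)
  have : 0 < exp (-(h / 2)) := exp_pos _
  simp only [Nat.cast_zero, zero_mul, neg_zero, exp_zero, sub_zero, one_mul]
  apply mul_pos (mul_pos hs (by linarith)) this

lemma sum_D_beta {h : ℝ} (hh : 0 < h) (N : ℕ) :
    (D 0 h - D 1 h) * β 0 h ≤ ∑ m ∈ Finset.range (N + 1), D m h * β m h := by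
  -- Abel summation
  have key : ∀ N : ℕ, ∑ m ∈ Finset.range N, D m h * β m h =
      D N h * (∑ m ∈ Finset.range N, β m h) +
        ∑ m ∈ Finset.range N, (D m h - D (m + 1) h) * ∑ j ∈ Finset.range (m + 1), β j h := by
    intro N
    induction N with
    | zero => simp
    | succ N ih =>
      rw [Finset.sum_range_succ, ih, Finset.sum_range_succ (fun m => (D m h - D (m + 1) h) * _),
        Finset.sum_range_succ (fun m => β m h)]
      ring
  rw [key]
  have h1 : 0 ≤ D (N + 1) h * ∑ m ∈ Finset.range (N + 1), β m h :=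
    mul_nonneg (D_pos _ _).le (beta_sum_pos hh _)
  have h2 : (D 0 h - D 1 h) * β 0 h ≤ ∑ m ∈ Finset.range (N + 1), (D m h - D (m + 1) h) *
      ∑ j ∈ Finset.range (m + 1), β j h := by
    have := Finset.single_le_sum (s := Finset.range (N + 1))
      (f := fun m => (D m h - D (m + 1) h) * ∑ j ∈ Finset.range (m + 1), β j h)
      (fun m _ => mul_nonneg (sub_nonneg.2 (D_anti hh m).le) (beta_sum_pos hh _))
      (Finset.mem_range.2 (Nat.succ_pos N))
    simpa using this
  linarith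

lemma summable_bound {r : ℝ} (hr0 : 0 ≤ r) (hr : r < 1) :
    Summable fun m : ℕ => 3 * ((m : ℝ) + 1) * r ^ m := by
  have h1 := summable_pow_mul_geometric_of_norm_lt_one (R := ℝ) 1
    (r := r) (by rwa [Real.norm_of_nonneg hr0])
  have h2 := summable_geometric_of_lt_one hr0 hr
  have h3 := (h1.add h2).mul_left 3
  refine h3.congr fun m => ?_
  simp only [pow_one]; ring

lemma tanh_abs (x : ℝ) : |tanh x| ≤ 1 := (abs_tanh_lt_one x).le

lemma g'_bound {ε : ℝ} (m : ℕ) {h : ℝ} (hh : ε < h) (hε : 0 < ε) :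
    ‖g' m h‖ ≤ 3 * ((m : ℝ) + 1) * exp (-ε) ^ m := by
  have hh0 : 0 < h := hε.trans hh
  have e0 : exp (-ε) ^ m = exp (-(m * ε)) := by
    rw [← exp_nat_mul]; congr 1; ring
  have e1 : exp (-(m * h)) ≤ exp (-(m * ε)) := by
    apply exp_le_exp.2
    have : (m : ℝ) * ε ≤ m * h := by gcongr
    linarith
  have e2 : exp (-((m + 1) * h)) ≤ exp (-(m * h)) := by
    apply exp_le_exp.2; nlinarith
  have p1 := exp_pos (-((m : ℝ) * h))
  have p2 := exp_pos (-(((m : ℝ) + 1) * h))
  have hm : (0 : ℝ) ≤ m := Nat.cast_nonneg m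
  rw [e0]
  unfold g'
  set E := exp (-((m : ℝ) * h))
  set E1 := exp (-(((m : ℝ) + 1) * h))
  set E0 := exp (-((m : ℝ) * ε))
  have a1 : |(-(m * E) + (m + 1) * E1) * tanh ((m + 1 / 2) * h / 2)| ≤ (2 * m + 1) * E := by
    rw [abs_mul]
    have b1 : |-(m * E) + (m + 1) * E1| ≤ (2 * m + 1) * E := by
      rw [abs_le]; constructor <;> nlinarith
    have b2 := tanh_abs ((m + 1 / 2) * h / 2)
    calc |-(m * E) + (m + 1) * E1| * |tanh ((m + 1 / 2) * h / 2)|
        ≤ (2 * m + 1) * E * 1 := mul_le_mul b1 b2 (abs_nonneg _) (by positivity)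
      _ = _ := mul_one _
  have a2 : |(E - E1) * ((m + 1 / 2) * D m h)| ≤ (m + 1 / 2) * E := by
    have d0 := (D_pos m h).le
    have d1 := D_le m h
    rw [abs_of_nonneg (mul_nonneg (by linarith) (by positivity))]
    have : (E - E1) * ((m + 1 / 2) * D m h) ≤ E * ((m + 1 / 2) * 1) := by
      apply mul_le_mul (by linarith) _ (by positivity) p1.le
      apply mul_le_mul_of_nonneg_left _ (by positivity)
      linarith
    linarith
  rw [Real.norm_eq_abs]
  refine (abs_add_le _ _).trans ?_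
  have : (2 * m + 1) * E + (m + 1 / 2) * E ≤ 3 * (m + 1) * E0 := by
    nlinarith
  linarith

lemma g_bound (m : ℕ) {h : ℝ} (hh : 0 < h) : ‖g m h‖ ≤ 3 * ((m : ℝ) + 1) * exp (-h) ^ m := by
  have e0 : exp (-h) ^ m = exp (-(m * h)) := by
    rw [← exp_nat_mul]; congr 1; ring
  rw [e0]
  unfold g
  have e2 : exp (-((m + 1) * h)) ≤ exp (-(m * h)) := by
    apply exp_le_exp.2; nlinarith
  have p1 := exp_pos (-((m : ℝ) * h))
  have p2 := exp_pos (-(((m : ℝ) + 1) * h))
  have hm : (0 : ℝ) ≤ m := Nat.cast_nonneg m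
  rw [Real.norm_eq_abs, abs_mul]
  have b2 := tanh_abs ((m + 1 / 2) * h / 2)
  have b1 : |exp (-(m * h)) - exp (-((m + 1) * h))| ≤ exp (-(m * h)) := by
    rw [abs_of_nonneg (by linarith)]; linarith
  have : |exp (-(m * h)) - exp (-((m + 1) * h))| * |tanh ((m + 1 / 2) * h / 2)| ≤
      exp (-(m * h)) * 1 := mul_le_mul b1 b2 (abs_nonneg _) p1.le
  nlinarith

lemma summable_g {h : ℝ} (hh : 0 < h) : Summable fun m => g m h :=
  Summable.of_norm_bounded (summable_bound (exp_pos _).le (exp_lt_one_iff.2 (by linarith)))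
    fun m => g_bound m hh

lemma hasDerivAt_f {h : ℝ} (hh : 0 < h) : HasDerivAt (fun h => ∑' m, g m h) (∑' m, g' m h) h := by
  have hε : 0 < h / 2 := by positivity
  refine hasDerivAt_tsum_of_isPreconnected (t := Ioi (h / 2)) (y₀ := h)
    (summable_bound (exp_pos (-(h / 2))).le (exp_lt_one_iff.2 (by linarith))) isOpen_Ioi
    isPreconnected_Ioi (fun n y _ => hasDerivAt_g n y) (fun n y hy => g'_bound n hy hε)
    (by simp only [mem_Ioi]; linarith) (summable_g hh) (by simp only [mem_Ioi]; linarith)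

lemma deriv_pos {h : ℝ} (hh : 0 < h) : 0 < ∑' m, g' m h := by
  have hsum : Summable fun m => g' m h :=
    Summable.of_norm_bounded (summable_bound (exp_pos (-(h / 2))).le (exp_lt_one_iff.2 (by linarith)))
      fun m => g'_bound m (by linarith) (by positivity)
  have hlim := hsum.hasSum.tendsto_sum_nat
  have hc : Tendsto (fun N : ℕ => c N h) atTop (𝓝 0) := by
    have h1 := summable_pow_mul_geometric_of_norm_lt_one (R := ℝ) 1
      (r := exp (-h)) (by rw [Real.norm_of_nonneg (exp_pos _).le]; exact exp_lt_one_iff.2 (by linarith))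
    refine h1.tendsto_atTop_zero.congr fun m => ?_
    unfold c
    rw [pow_one, ← exp_nat_mul]
    congr 2; ring
  have hs : 0 < sinh (h / 2) := sinh_pos_iff.2 (by positivity)
  have hlow : Tendsto (fun N : ℕ => (D 0 h - D 1 h) * β 0 h - (1 + sinh (h / 2)) * c (N + 1) h) atTop
      (𝓝 ((D 0 h - D 1 h) * β 0 h - (1 + sinh (h / 2)) * 0)) :=
    ((hc.comp (tendsto_add_atTop_nat 1)).const_mul _).const_sub _
  rw [mul_zero, sub_zero] at hlow
  have hle : (D 0 h - D 1 h) * β 0 h ≤ ∑' m, g' m h := by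
    refine le_of_tendsto_of_tendsto' hlow (hlim.comp (tendsto_add_atTop_nat 1)) fun N => ?_
    have h1 := partial_ge hh (N + 1)
    have h2 := sum_D_beta hh N
    have h3 : 0 ≤ c (N + 1) h := by unfold c; positivity
    have h4 := (abs_le.1 (tanh_abs ((((N + 1 : ℕ) : ℝ) + 1 / 2) * h / 2))).1
    have h5 := D_le (N + 1) h
    have h6 := (D_pos (N + 1) h).le
    have h7 : c (N + 1) h * D (N + 1) h ≤ c (N + 1) h := by nlinarith
    have h8 : -c (N + 1) h ≤ c (N + 1) h * tanh ((((N + 1 : ℕ) : ℝ) + 1 / 2) * h / 2) := by nlinarith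
    have h9 := mul_le_mul_of_nonneg_left h7 hs.le
    simp only [Function.comp_apply]
    linarith
  refine lt_of_lt_of_le (mul_pos (sub_pos.2 ?_) (beta0 hh)) hle
  exact D_anti hh 0

theorem strictMono_f : StrictMonoOn (fun h => ∑' m, g m h) (Ioi 0) := by
  apply strictMonoOn_of_deriv_pos (convex_Ioi 0)
  · intro h hh
    exact (hasDerivAt_f hh).continuousAt.continuousWithinAt
  · intro h hh
    rw [interior_Ioi] at hh
    rw [(hasDerivAt_f hh).deriv]
    exact deriv_pos hh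

end Pool.Agent.X153.CS
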